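import Pool.Agent.Helper53K9.WC.Fin
import Pool.Agent.Helper53K9.WC.Par
import Pool.Agent.Helper53K9.WC.Base
import Pool.Agent.Helper53K9.WC.Star
import Pool.Agent.Helper53K9.WC.Wt
import Pool.Agent.Helper53K9.WC.Rot
import Pool.Agent.Helper53K9.WC.Opa
import Pool.Agent.Helper53K9.WC.Opf
import Pool.Agent.Helper53K9.WC.Comb
import Pool.Agent.Helper53K9.WC.Coef
import Pool.Agent.Helper53K9.WC.Sum
import Pool.Agent.Helper53K9.WC.Fun1
import Pool.Agent.Helper53K9.WC.Fun2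

set_option autoImplicit false

namespace Pool.Agent.Results.MP_27fa52_an.IncompleteTranslates

open MeasureTheory Set Filter Topology

/-- A weight with `α_+ = α_- = 0`: measurable, `≥ 1`, submultiplicative on `ℝ`,
`log φ(t) / t → 0` as `t → ±∞`. -/
def IsWeight (φ : ℝ → ℝ) : Prop :=
  Measurable φ ∧ (∀ t, 1 ≤ φ t) ∧ (∀ t τ, φ (t + τ) ≤ φ t * φ τ) ∧
  Tendsto (fun t => Real.log (φ t) / t) atTop (𝓝 0) ∧
  Tendsto (fun t => Real.log (φ t) / t) atBot (𝓝 0)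

/-- `f ∈ L^1_φ(ℝ_+)`: `f` is measurable, vanishes on `(-∞, 0)` and `∫_0^∞ |f| φ < ∞`. -/
def InL1 (φ : ℝ → ℝ) (f : ℝ → ℂ) : Prop :=
  AEStronglyMeasurable f volume ∧ (∀ t, t < 0 → f t = 0) ∧
  IntegrableOn (fun t => ‖f t‖ * φ t) (Set.Ioi 0)

/-- `g ∈ L^∞_φ(ℝ_+)`: `g` is measurable on `(0, ∞)` and `g / φ` is essentially bounded there. -/
def InLinf (φ : ℝ → ℝ) (g : ℝ → ℂ) : Prop :=
  AEStronglyMeasurable g (volume.restrict (Set.Ioi 0)) ∧
  ∃ K : ℝ, ∀ᵐ t ∂(volume.restrict (Set.Ioi (0:ℝ))), ‖g t‖ ≤ K * φ t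

/-- The transform `∫_0^∞ f(t) e^{-itz} dt`. -/
noncomputable def hat (f : ℝ → ℂ) (z : ℂ) : ℂ :=
  ∫ t in Set.Ioi (0:ℝ), f t * Complex.exp (-(Complex.I * (t:ℂ) * z))

/-- The two conditions on the transform of `f`: it has no zero in `Im z ≤ 0` and
`limsup_{y → -∞} log |hat f (iy)| / |y| = 0` (a limsup of extended real numbers). -/
def TransformConditions (f : ℝ → ℂ) : Prop :=
  (∀ z : ℂ, z.im ≤ 0 → hat f z ≠ 0) ∧
  Filter.limsup (fun y : ℝ => ((Real.log ‖hat f (y * Complex.I)‖ / |y| : ℝ) : EReal)) atBot = 0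

/-- **Q1 has a negative answer** (the negated form of the problem): there are a weight `φ` with
`α_± = 0`, a function `f ∈ L^1_φ(ℝ_+)` whose transform satisfies both conditions, and a function
`g ∈ L^∞_φ(ℝ_+)` which is not a.e. zero on `(0, ∞)`, with `∫_0^∞ f(t) g(t+τ) dt = 0` for all
`τ > 0`. -/
theorem result : ∃ (φ : ℝ → ℝ) (f g : ℝ → ℂ), IsWeight φ ∧ InL1 φ f ∧ TransformConditions f ∧
    InLinf φ g ∧ (∀ τ : ℝ, 0 < τ → ∫ t in Set.Ioi (0:ℝ), f t * g (t + τ) = 0) ∧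
    ¬ ∀ᵐ t ∂(volume.restrict (Set.Ioi (0:ℝ))), g t = 0 := by
  obtain ⟨φ, f, h1, h2, h3, h4⟩ := Pool.Agent.Helper53K9.WC.fin_of
    Pool.Agent.Helper53K9.WC.par Pool.Agent.Helper53K9.WC.base Pool.Agent.Helper53K9.WC.star
    Pool.Agent.Helper53K9.WC.wt Pool.Agent.Helper53K9.WC.rot
    Pool.Agent.Helper53K9.WC.opf
    Pool.Agent.Helper53K9.WC.comb Pool.Agent.Helper53K9.WC.coef Pool.Agent.Helper53K9.WC.sum
    Pool.Agent.Helper53K9.WC.fun1 Pool.Agent.Helper53K9.WC.fun2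
  by_contra hcon
  refine h4 fun g hg hint => ?_
  by_contra hne
  exact hcon ⟨φ, f, g, h1, h2, h3, hg, hint, hne⟩

end Pool.Agent.Results.MP_27fa52_an.IncompleteTranslates
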